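import Pool.Agent.Q96.OI.UNR

set_option autoImplicit false

/-! Project OI of helper282, task NR: the maximal unramified extension. -/

open Matrix Polynomial Filter Topology NumberField IsDedekindDomain
open Pool.Agent.Y142.ZO Pool.Agent.Y142.ZI Pool.Agent.Y142.ZD Pool.Agent.Y255.SS

namespace Pool.Agent.Q96.OI.NR

open Pool.Agent.Q96.OI.Res

variable {ℓ : ℕ} [hℓ : Fact ℓ.Prime]

theorem monic_X {e : ℕ} (he : 0 < e) : (X ^ e - 1 : ℤ[X]).Monic := by
  have := monic_X_pow_sub_C (1 : ℤ) he.ne'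
  rwa [C_1] at this

theorem sep_X {e : ℕ} (h : ¬ ℓ ∣ e) : ((X ^ e - 1 : ℤ[X]).map (Int.castRingHom (ZMod ℓ))).Separable := by
  rw [Polynomial.map_sub, Polynomial.map_pow, map_X, Polynomial.map_one, X_pow_sub_one_separable_iff]
  rwa [Ne, ZMod.natCast_eq_zero_iff]

theorem rt_X {e : ℕ} (ζ : AlgebraicClosure ℚ_[ℓ]) : aeval ζ (X ^ e - 1 : ℤ[X]) = 0 ↔ ζ ^ e = 1 := by
  rw [map_sub, map_pow, aeval_X, map_one, sub_eq_zero]

/-- the maximal unramified extension is unramified -/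
theorem unr (hUNR : S_UNR) : Unr ℓ (NR ℓ) := by
  have key : ∀ y ∈ NR ℓ, ∃ n : ℕ, 0 < n ∧ ¬ ℓ ∣ n ∧
      y ∈ IntermediateField.adjoin ℚ_[ℓ] {x : AlgebraicClosure ℚ_[ℓ] | aeval x (X ^ n - 1 : ℤ[X]) = 0} := by
    intro y hy
    have hmono : ∀ a b : ℕ, IntermediateField.adjoin ℚ_[ℓ]
        {x : AlgebraicClosure ℚ_[ℓ] | aeval x (X ^ a - 1 : ℤ[X]) = 0} ≤
        IntermediateField.adjoin ℚ_[ℓ]
        {x : AlgebraicClosure ℚ_[ℓ] | aeval x (X ^ (a * b) - 1 : ℤ[X]) = 0} := by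
      intro a b
      apply IntermediateField.adjoin.mono
      intro x hx
      have h1 := (rt_X x).1 hx
      exact (rt_X x).2 (by rw [pow_mul, h1, one_pow])
    have hndvd : ∀ a b : ℕ, ¬ ℓ ∣ a → ¬ ℓ ∣ b → ¬ ℓ ∣ a * b := by
      intro a b ha hb h
      rcases (Nat.Prime.dvd_mul hℓ.out).1 h with h1 | h1
      · exact ha h1
      · exact hb h1
    refine IntermediateField.adjoin_induction (F := ℚ_[ℓ])
      (s := {ζ : AlgebraicClosure ℚ_[ℓ] | ∃ n : ℕ, 0 < n ∧ ¬ ℓ ∣ n ∧ ζ ^ n = 1})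
      (p := fun y _ => ∃ n : ℕ, 0 < n ∧ ¬ ℓ ∣ n ∧
      y ∈ IntermediateField.adjoin ℚ_[ℓ]
        {x : AlgebraicClosure ℚ_[ℓ] | aeval x (X ^ n - 1 : ℤ[X]) = 0}) ?_ ?_ ?_ ?_ ?_ hy
    · rintro ζ ⟨n, hn, hd, h⟩
      exact ⟨n, hn, hd, IntermediateField.subset_adjoin _ _ ((rt_X ζ).2 h)⟩
    · intro c
      refine ⟨1, one_pos, ?_, IntermediateField.algebraMap_mem _ c⟩
      rw [Nat.dvd_one]
      exact hℓ.out.ne_one
    · rintro u v - - ⟨a, ha, ha', hu⟩ ⟨b, hb, hb', hv⟩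
      refine ⟨a * b, Nat.mul_pos ha hb, hndvd a b ha' hb', add_mem (hmono a b hu) ?_⟩
      rw [mul_comm]
      exact hmono b a hv
    · rintro u - ⟨a, ha, ha', hu⟩
      exact ⟨a, ha, ha', inv_mem hu⟩
    · rintro u v - - ⟨a, ha, ha', hu⟩ ⟨b, hb, hb', hv⟩
      refine ⟨a * b, Nat.mul_pos ha hb, hndvd a b ha' hb', mul_mem (hmono a b hu) ?_⟩
      rw [mul_comm]
      exact hmono b a hv
  intro y hy hy0
  obtain ⟨n, hn, hd, hy'⟩ := key y hy
  exact hUNR ℓ (X ^ n - 1) (monic_X hn) (sep_X hd) y hy' hy0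

/-- every integral element is close to an element of `NR` -/
theorem exists_teich {x : AlgebraicClosure ℚ_[ℓ]} (hx : ‖x‖ ≤ 1) : ∃ ζ ∈ NR ℓ, ‖x - ζ‖ < 1 := by
  classical
  by_cases hlt : ‖x‖ < 1
  · exact ⟨0, zero_mem _, by rwa [sub_zero]⟩
  have hx1 : ‖x‖ = 1 := le_antisymm hx (not_lt.1 hlt)
  obtain ⟨κ, _, π, hsurj, hker, hact⟩ := exists_res ℓ
  have hchar := charp π hker
  let _ : Algebra (ZMod ℓ) κ := ZMod.algebra κ ℓ
  set X' : BB ℓ := ⟨x, int_of_le ℓ hx⟩ with hX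
  have hint := pi_int π hker X'
  obtain ⟨k, hk⟩ : ∃ k : ℕ, (π X') ^ (ℓ ^ (k + 1)) = π X' := by
    have hfin : FiniteDimensional (ZMod ℓ) (IntermediateField.adjoin (ZMod ℓ) {π X'}) :=
      IntermediateField.adjoin.finiteDimensional hint
    have hfin2 : Finite (IntermediateField.adjoin (ZMod ℓ) {π X'}) :=
      Module.finite_of_finite (ZMod ℓ)
    let _ : Fintype (IntermediateField.adjoin (ZMod ℓ) {π X'}) := Fintype.ofFinite _
    have hcard := Module.card_eq_pow_finrank (K := ZMod ℓ)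
      (V := IntermediateField.adjoin (ZMod ℓ) {π X'})
    rw [ZMod.card] at hcard
    have h1 := FiniteField.pow_card (IntermediateField.AdjoinSimple.gen (ZMod ℓ) (π X'))
    rw [hcard] at h1
    have hpos : 0 < Module.finrank (ZMod ℓ) (IntermediateField.adjoin (ZMod ℓ) {π X'}) :=
      Module.finrank_pos
    refine ⟨Module.finrank (ZMod ℓ) (IntermediateField.adjoin (ZMod ℓ) {π X'}) - 1, ?_⟩
    rw [Nat.sub_add_cancel hpos]
    have h2 := congrArg (fun z : IntermediateField.adjoin (ZMod ℓ) {π X'} => (z : κ)) h1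
    exact h2
  set q := ℓ ^ (k + 1) with hq
  have hq1 : 1 < q := Nat.one_lt_pow (by omega) hℓ.out.one_lt
  have hℓq : ℓ ∣ q := dvd_pow_self ℓ (by omega)
  have hd : ¬ ℓ ∣ (q - 1) := by
    intro h
    have h2 : ℓ ∣ 1 := by
      have := Nat.dvd_sub hℓq h
      rwa [Nat.sub_sub_self hq1.le] at this
    exact hℓ.out.one_lt.not_ge (Nat.le_of_dvd one_pos h2)
  clear_value q
  have h3 : ‖x ^ q - x‖ < 1 := by
    have h4 : π (X' ^ q - X') = 0 := by rw [map_sub, map_pow, hk, sub_self]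
    have h5 := (hker (X' ^ q - X')).1 h4
    rw [Subalgebra.coe_sub, Subalgebra.coe_pow] at h5
    exact h5
  have h5 : ‖x ^ (q - 1) - 1‖ < 1 := by
    have h6 : x ^ q - x = x * (x ^ (q - 1) - 1) := by
      obtain ⟨r, hr⟩ : ∃ r, q = r + 1 := ⟨q - 1, by omega⟩
      rw [hr, Nat.add_sub_cancel]
      ring
    rw [h6, norm_mul, hx1, one_mul] at h3
    exact h3
  set P : (AlgebraicClosure ℚ_[ℓ])[X] := X ^ (q - 1) - C 1 with hP
  have hPm : P.Monic := monic_X_pow_sub_C 1 (by omega)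
  have h7 : ‖(P.roots.map fun r => x - r).prod‖ < 1 := by
    rw [← (IsAlgClosed.splits P).eval_eq_prod_roots_of_monic hPm, hP, eval_sub, eval_pow, eval_X,
      eval_C]
    exact h5
  by_contra hcon
  push Not at hcon
  have h8 := Pool.Agent.Y331.ZD.ms_near (zero_le_one) x P.roots (by
    intro r hr
    apply hcon
    apply IntermediateField.subset_adjoin
    refine ⟨q - 1, by omega, hd, ?_⟩
    rw [mem_roots hPm.ne_zero, IsRoot, hP, eval_sub, eval_pow, eval_X, eval_C, sub_eq_zero] at hr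
    exact hr)
  rw [one_pow] at h8
  exact absurd h7 (not_lt.2 h8)

/-- a criterion -/
theorem mem_nr {x : AlgebraicClosure ℚ_[ℓ]} (hx : ‖x‖ ≤ 1)
    (h : ∀ τ : AlgebraicClosure ℚ_[ℓ] ≃ₐ[NR ℓ] AlgebraicClosure ℚ_[ℓ], ‖τ x - x‖ < 1 → τ x = x) :
    x ∈ NR ℓ := by
  obtain ⟨ζ, hζ, hζx⟩ := exists_teich hx
  have h1 : x ∈ (⊥ : IntermediateField (NR ℓ) (AlgebraicClosure ℚ_[ℓ])) := by
    rw [InfiniteGalois.mem_bot_iff_fixed]
    intro τ
    apply h
    have h2 : τ ζ = ζ := τ.commutes (⟨ζ, hζ⟩ : NR ℓ)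
    have h3 : τ x - x = τ (x - ζ) - (x - ζ) := by
      rw [map_sub, h2]; ring
    rw [h3]
    refine Pool.Agent.Y331.ZD.um_sub ?_ hζx
    have h4 := Pool.Agent.Y331.ZD.norm_inv' (τ.restrictScalars ℚ_[ℓ]) (x - ζ)
    rw [AlgEquiv.restrictScalars_apply] at h4
    rw [h4]
    exact hζx
  rw [IntermediateField.mem_bot] at h1
  obtain ⟨y, hy⟩ := h1
  rw [← hy]
  exact y.2

theorem t (hUNR : S_UNR) : S_NR := by
  intro ℓ hℓ
  refine ⟨unr hUNR, ?_, ?_⟩
  · intro f hf hsep x hx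
    apply mem_nr (int_root ℓ hf hx)
    intro τ hτ
    refine (root_dist ℓ hf hsep hx ?_ hτ).symm
    have h1 : aeval (τ x) f = τ (aeval x f) :=
      Polynomial.aeval_algHom_apply (τ.toAlgHom.restrictScalars ℤ) x f
    rw [h1, hx, map_zero]
  · intro e u y he hd hu hy
    have hyn : ‖y‖ = 1 := by
      have h1 : ‖y ^ e‖ = 1 := by rw [hy, nmap, hu]
      rw [norm_pow] at h1
      exact (pow_eq_one_iff_of_nonneg (norm_nonneg y) he.ne').1 h1
    have hy0 : y ≠ 0 := by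
      rintro rfl
      rw [norm_zero] at hyn
      exact zero_ne_one hyn
    apply mem_nr hyn.le
    intro τ hτ
    have h2 : (τ y) ^ e = y ^ e := by
      rw [← map_pow, hy, IsScalarTower.algebraMap_apply ℚ_[ℓ] (NR ℓ) (AlgebraicClosure ℚ_[ℓ])]
      exact τ.commutes _
    have h3 : (τ y / y) ^ e = 1 := by
      rw [div_pow, h2, div_self (pow_ne_zero e hy0)]
    have h4 : ‖τ y / y - 1‖ < 1 := by
      have h5 : τ y / y - 1 = (τ y - y) / y := by field_simp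
      rw [h5, norm_div, hyn, div_one]
      exact hτ
    have h6 := root_dist ℓ (monic_X he) (sep_X hd) ((rt_X 1).2 (one_pow e)) ((rt_X (τ y / y)).2 h3) h4
    have h7 := h6.symm
    rw [div_eq_one_iff_eq hy0] at h7
    exact h7

end Pool.Agent.Q96.OI.NR
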