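import Pool.Agent.Q96.OI.Res

set_option autoImplicit false

/-! Project OI of helper282, task UNR: the splitting field of a polynomial which is separable
modulo `ℓ` is unramified. -/

open Matrix Polynomial Filter Topology NumberField IsDedekindDomain
open Pool.Agent.Y142.ZO Pool.Agent.Y142.ZI Pool.Agent.Y255.SS

namespace Pool.Agent.Q96.OI.UNR

open Pool.Agent.Q96.OI.Res

variable {ℓ : ℕ} [hℓ : Fact ℓ.Prime]

section

variable {κ : Type} [Field κ] (π : BB ℓ →+* κ) [Algebra (ZMod ℓ) κ]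
  (hker : ∀ x : BB ℓ, π x = 0 ↔ ‖(x : AlgebraicClosure ℚ_[ℓ])‖ < 1)

include hker in
/-- independent reductions, integral coefficients -/
theorem red1 {n : ℕ} {w : Fin n → BB ℓ} (hw : LinearIndependent (ZMod ℓ) fun i => π (w i))
    (c : Fin n → ℤ_[ℓ]) (hc : ‖∑ i, algebraMap ℚ_[ℓ] (AlgebraicClosure ℚ_[ℓ]) (c i) *
      (w i : AlgebraicClosure ℚ_[ℓ])‖ < 1) (i : Fin n) : ‖c i‖ < 1 := by
  have h1 : ((∑ i, algebraMap ℤ_[ℓ] (BB ℓ) (c i) * w i : BB ℓ) : AlgebraicClosure ℚ_[ℓ]) =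
      ∑ i, algebraMap ℚ_[ℓ] (AlgebraicClosure ℚ_[ℓ]) (c i) * (w i : AlgebraicClosure ℚ_[ℓ]) := by
    push_cast
    rfl
  rw [← h1, ← hker, map_sum] at hc
  have h2 : ∑ i, (PadicInt.toZMod (c i)) • π (w i) = 0 := by
    rw [← hc]
    refine Finset.sum_congr rfl fun i _ => ?_
    rw [map_mul, pi_alg π hker, Algebra.smul_def]
  have h3 := Fintype.linearIndependent_iff.1 hw _ h2 i
  rw [← PadicInt.mem_nonunits, ← IsLocalRing.mem_maximalIdeal, ← PadicInt.ker_toZMod,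
    RingHom.mem_ker]
  exact h3

include hker in
/-- independent reductions: the norm of a combination -/
theorem red2 {n : ℕ} {w : Fin n → BB ℓ} (hw : LinearIndependent (ZMod ℓ) fun i => π (w i))
    (a : Fin n → ℚ_[ℓ]) (ha : a ≠ 0) : ∃ k : ℤ, ‖∑ i, algebraMap ℚ_[ℓ] (AlgebraicClosure ℚ_[ℓ]) (a i) *
      (w i : AlgebraicClosure ℚ_[ℓ])‖ = (ℓ : ℝ) ^ k := by
  obtain ⟨j, hj⟩ := Function.ne_iff.1 ha
  obtain ⟨i₀, -, hi₀⟩ := Finset.exists_max_image Finset.univ (fun i => ‖a i‖) ⟨j, Finset.mem_univ j⟩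
  have h0 : a i₀ ≠ 0 := by
    rw [← norm_pos_iff]
    exact (norm_pos_iff.2 hj).trans_le (hi₀ j (Finset.mem_univ j))
  have h0' := norm_pos_iff.2 h0
  have hle : ∀ i, ‖a i / a i₀‖ ≤ 1 := by
    intro i
    rw [norm_div]
    exact (div_le_one h0').2 (hi₀ i (Finset.mem_univ i))
  set c : Fin n → ℤ_[ℓ] := fun i => ⟨a i / a i₀, hle i⟩ with hc
  have h1 : ∑ i, algebraMap ℚ_[ℓ] (AlgebraicClosure ℚ_[ℓ]) (a i) * (w i : AlgebraicClosure ℚ_[ℓ]) =
      algebraMap ℚ_[ℓ] (AlgebraicClosure ℚ_[ℓ]) (a i₀) *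
      ∑ i, algebraMap ℚ_[ℓ] (AlgebraicClosure ℚ_[ℓ]) (c i) * (w i : AlgebraicClosure ℚ_[ℓ]) := by
    rw [Finset.mul_sum]
    refine Finset.sum_congr rfl fun i _ => ?_
    rw [← mul_assoc, ← map_mul]
    congr 2
    show a i = a i₀ * (a i / a i₀)
    field_simp
  have h2 : ‖∑ i, algebraMap ℚ_[ℓ] (AlgebraicClosure ℚ_[ℓ]) (c i) *
      (w i : AlgebraicClosure ℚ_[ℓ])‖ = 1 := by
    apply le_antisymm
    · apply IsUltrametricDist.norm_sum_le_of_forall_le_of_nonneg (M := AlgebraicClosure ℚ_[ℓ])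
        zero_le_one
      intro i _
      rw [norm_mul, nmap]
      have h3 := le_of_int ℓ (w i).2
      have h4 : ‖((c i : ℤ_[ℓ]) : ℚ_[ℓ])‖ ≤ 1 := (c i).2
      exact mul_le_one₀ h4 (norm_nonneg _) h3
    · by_contra hlt
      push Not at hlt
      have h3 := red1 π hker hw c hlt i₀
      have h4 : ‖c i₀‖ = 1 := by
        rw [PadicInt.norm_def]
        show ‖a i₀ / a i₀‖ = 1
        rw [div_self h0, norm_one]
      rw [h4] at h3
      exact lt_irrefl _ h3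
  rw [h1, norm_mul, h2, mul_one, nmap]
  exact ⟨-(a i₀).valuation, Padic.norm_eq_zpow_neg_valuation h0⟩

end

theorem t : S_UNR := by
  classical
  intro ℓ hℓ f hf hsep
  obtain ⟨κ, _, π, hsurj, hker, hact⟩ := exists_res ℓ
  have hchar := charp π hker
  let _ : Algebra (ZMod ℓ) κ := ZMod.algebra κ ℓ
  set Z : Set (AlgebraicClosure ℚ_[ℓ]) := {x | aeval x f = 0} with hZ
  have hZfin : Z.Finite := by
    have h1 : (f.map (algebraMap ℤ (AlgebraicClosure ℚ_[ℓ]))) ≠ 0 := (hf.map _).ne_zero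
    refine Set.Finite.subset (Multiset.finite_toSet (f.map (algebraMap ℤ (AlgebraicClosure ℚ_[ℓ]))).roots) ?_
    intro x hx
    show x ∈ (f.map (algebraMap ℤ (AlgebraicClosure ℚ_[ℓ]))).roots
    rw [mem_roots h1, IsRoot, eval_map_algebraMap]
    exact hx
  set E := IntermediateField.adjoin ℚ_[ℓ] Z with hE
  have hZint : ∀ x ∈ Z, ‖x‖ ≤ 1 := fun x hx => int_root ℓ hf hx
  -- the reductions of the roots
  set Zb : Set κ := π '' {x : BB ℓ | (x : AlgebraicClosure ℚ_[ℓ]) ∈ Z} with hZb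
  have hZbfin : Zb.Finite := by
    apply Set.Finite.image
    exact hZfin.preimage Subtype.val_injective.injOn
  set A : Subalgebra (ZMod ℓ) κ := Algebra.adjoin (ZMod ℓ) Zb with hA
  have hAfin : Module.Finite (ZMod ℓ) A := by
    have h1 : (Algebra.adjoin (ZMod ℓ) Zb).toSubmodule.FG :=
      fg_adjoin_of_finite hZbfin (by
        rintro _ ⟨x, -, rfl⟩
        exact pi_int π hker x)
    exact Module.Finite.iff_fg.2 h1
  -- dimension of `E`
  have hEfin : FiniteDimensional ℚ_[ℓ] E := by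
    have : Finite Z := hZfin
    apply IntermediateField.finiteDimensional_adjoin
    intro x _
    exact Algebra.IsIntegral.isIntegral x
  have hdim : Module.finrank ℚ_[ℓ] E ≤ Module.finrank (ZMod ℓ) A := by
    rw [← AlgHom.card ℚ_[ℓ] E (AlgebraicClosure ℚ_[ℓ]), Fintype.card_eq_nat_card]
    refine le_trans ?_ (card_algHom_le_finrank (ZMod ℓ) A κ)
    have key : ∀ σ : E →ₐ[ℚ_[ℓ]] AlgebraicClosure ℚ_[ℓ], ∃ φ : A →ₐ[ZMod ℓ] κ,
        ∀ (x : AlgebraicClosure ℚ_[ℓ]) (hx : x ∈ Z) (hxE : x ∈ E) (x' y' : BB ℓ) (hx' : π x' ∈ A),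
          (x' : AlgebraicClosure ℚ_[ℓ]) = x → (y' : AlgebraicClosure ℚ_[ℓ]) = σ ⟨x, hxE⟩ →
          φ ⟨π x', hx'⟩ = π y' := by
      intro σ
      obtain ⟨τ, hτ⟩ : ∃ τ : AlgebraicClosure ℚ_[ℓ] →ₐ[ℚ_[ℓ]] AlgebraicClosure ℚ_[ℓ],
          ∀ x : E, τ x = σ x := by
        let _ : Algebra E (AlgebraicClosure ℚ_[ℓ]) := inferInstance
        exact ⟨σ.liftNormal (AlgebraicClosure ℚ_[ℓ]), fun x => AlgHom.liftNormal_commutes σ _ x⟩
      obtain ⟨φ, hφ⟩ := hact (AlgEquiv.ofBijective τ (Algebra.IsAlgebraic.algHom_bijective τ))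
      refine ⟨{ (φ.comp A.val.toRingHom) with commutes' := ?_ }, ?_⟩
      · intro r
        show φ (algebraMap (ZMod ℓ) κ r) = algebraMap (ZMod ℓ) κ r
        rw [← ZMod.natCast_zmod_val r, map_natCast, map_natCast]
      · intro x hx hxE x' y' hx' h1 h2
        show φ (π x') = π y'
        apply hφ
        rw [h2, h1]
        exact (hτ ⟨x, hxE⟩).symm
    choose Φ hΦ using key
    refine Nat.card_le_card_of_injective Φ ?_
    intro σ₁ σ₂ h12
    have hZE : ∀ x ∈ Z, x ∈ E := fun x hx => IntermediateField.subset_adjoin _ _ hx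
    have hroot : ∀ (σ : E →ₐ[ℚ_[ℓ]] AlgebraicClosure ℚ_[ℓ]) (x : AlgebraicClosure ℚ_[ℓ]) (hx : x ∈ Z),
        σ ⟨x, hZE x hx⟩ ∈ Z := by
      intro σ x hx
      show aeval (σ ⟨x, hZE x hx⟩) f = 0
      have h1 : aeval (⟨x, hZE x hx⟩ : E) f = 0 := by
        apply (algebraMap E (AlgebraicClosure ℚ_[ℓ])).injective
        rw [map_zero, ← Polynomial.aeval_algebraMap_apply]
        exact hx
      have h2 : aeval (σ ⟨x, hZE x hx⟩) f = σ (aeval (⟨x, hZE x hx⟩ : E) f) :=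
        Polynomial.aeval_algHom_apply (σ.restrictScalars ℤ) _ f
      rw [h2, h1, map_zero]
    have heq : ∀ (x : AlgebraicClosure ℚ_[ℓ]) (hx : x ∈ Z),
        σ₁ ⟨x, hZE x hx⟩ = σ₂ ⟨x, hZE x hx⟩ := by
      intro x hx
      have i0 := int_of_le ℓ (hZint x hx)
      have i1 := int_of_le ℓ (hZint _ (hroot σ₁ x hx))
      have i2 := int_of_le ℓ (hZint _ (hroot σ₂ x hx))
      have hx' : π (⟨x, i0⟩ : BB ℓ) ∈ A := Algebra.subset_adjoin ⟨⟨x, i0⟩, hx, rfl⟩
      have e1 := hΦ σ₁ x hx (hZE x hx) ⟨x, i0⟩ ⟨_, i1⟩ hx' rfl rfl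
      have e2 := hΦ σ₂ x hx (hZE x hx) ⟨x, i0⟩ ⟨_, i2⟩ hx' rfl rfl
      rw [h12, e2] at e1
      rw [← sub_eq_zero, ← map_sub, hker] at e1
      exact root_dist ℓ hf hsep (hroot σ₁ x hx) (hroot σ₂ x hx) e1
    ext x
    refine IntermediateField.adjoin_induction (F := ℚ_[ℓ]) (s := Z)
      (p := fun y hy => σ₁ ⟨y, hy⟩ = σ₂ ⟨y, hy⟩) ?_ ?_ ?_ ?_ ?_ x.2
    · intro y hy
      exact heq y hy
    · intro c
      exact (σ₁.commutes c).trans (σ₂.commutes c).symm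
    · intro y z hy hz h1 h2
      have a1 := map_add σ₁ (⟨y, hy⟩ : E) ⟨z, hz⟩
      have a2 := map_add σ₂ (⟨y, hy⟩ : E) ⟨z, hz⟩
      rw [h1, h2, ← a2] at a1
      exact a1
    · intro y hy h1
      have a1 := map_inv₀ σ₁ (⟨y, hy⟩ : E)
      have a2 := map_inv₀ σ₂ (⟨y, hy⟩ : E)
      rw [h1, ← a2] at a1
      exact a1
    · intro y z hy hz h1 h2
      have a1 := map_mul σ₁ (⟨y, hy⟩ : E) ⟨z, hz⟩
      have a2 := map_mul σ₂ (⟨y, hy⟩ : E) ⟨z, hz⟩
      rw [h1, h2, ← a2] at a1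
      exact a1
  -- lifting
  have hlift : ∀ a ∈ A, ∃ w : BB ℓ, (w : AlgebraicClosure ℚ_[ℓ]) ∈ E ∧ π w = a := by
    intro a ha
    refine Algebra.adjoin_induction (R := ZMod ℓ) (s := Zb)
      (p := fun a _ => ∃ w : BB ℓ, (w : AlgebraicClosure ℚ_[ℓ]) ∈ E ∧ π w = a) ?_ ?_ ?_ ?_ ha
    · rintro _ ⟨x, hx, rfl⟩
      exact ⟨x, IntermediateField.subset_adjoin _ _ hx, rfl⟩
    · intro r
      refine ⟨((r.val : ℕ) : BB ℓ), ?_, ?_⟩
      · have h1 : (((r.val : ℕ) : BB ℓ) : AlgebraicClosure ℚ_[ℓ]) = ((r.val : ℕ) : AlgebraicClosure ℚ_[ℓ]) := by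
          push_cast
          rfl
        rw [h1]
        exact natCast_mem E _
      · rw [map_natCast]
        conv_rhs => rw [← ZMod.natCast_zmod_val r]
        rw [map_natCast]
    · rintro a b - - ⟨u, hu, rfl⟩ ⟨v, hv, rfl⟩
      exact ⟨u + v, add_mem hu hv, map_add π u v⟩
    · rintro a b - - ⟨u, hu, rfl⟩ ⟨v, hv, rfl⟩
      exact ⟨u * v, mul_mem hu hv, map_mul π u v⟩
  set n := Module.finrank (ZMod ℓ) A with hn
  let β : Module.Basis (Fin n) (ZMod ℓ) A := Module.finBasis (ZMod ℓ) A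
  choose w hwE hwπ using fun i => hlift (β i) (β i).2
  have hwli : LinearIndependent (ZMod ℓ) fun i => π (w i) := by
    have h1 : (fun i => π (w i)) = fun i => A.val.toLinearMap (β i) := by
      funext i
      exact hwπ i
    rw [h1]
    exact β.linearIndependent.map' A.val.toLinearMap
      (LinearMap.ker_eq_bot.2 Subtype.val_injective)
  let W : Fin n → E := fun i => ⟨w i, hwE i⟩
  have hsum : ∀ a : Fin n → ℚ_[ℓ], ((∑ i, a i • W i : E) : AlgebraicClosure ℚ_[ℓ]) =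
      ∑ i, algebraMap ℚ_[ℓ] (AlgebraicClosure ℚ_[ℓ]) (a i) * (w i : AlgebraicClosure ℚ_[ℓ]) := by
    intro a
    rw [IntermediateField.coe_sum]
    refine Finset.sum_congr rfl fun i _ => ?_
    rw [IntermediateField.coe_smul, Algebra.smul_def]
  have hℓ0 : (0 : ℝ) < ℓ := by exact_mod_cast hℓ.out.pos
  have hWli : LinearIndependent ℚ_[ℓ] W := by
    rw [Fintype.linearIndependent_iff]
    intro a ha
    by_contra hcon
    have ha0 : a ≠ 0 := fun h => hcon fun i => by rw [h]; rfl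
    obtain ⟨k, hk⟩ := red2 π hker hwli a ha0
    rw [← hsum, ha, ZeroMemClass.coe_zero, norm_zero] at hk
    have := zpow_pos hℓ0 k
    linarith
  have hcard : Fintype.card (Fin n) = Module.finrank ℚ_[ℓ] E := by
    apply le_antisymm
    · exact hWli.fintype_card_le_finrank
    · rw [Fintype.card_fin]
      exact hdim
  have hspan := hWli.span_eq_top_of_card_eq_finrank' hcard
  intro y hy hy0
  have hyE : (⟨y, hy⟩ : E) ∈ Submodule.span ℚ_[ℓ] (Set.range W) := by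
    rw [hspan]
    trivial
  obtain ⟨a, ha⟩ := (Submodule.mem_span_range_iff_exists_fun ℚ_[ℓ]).1 hyE
  have ha' := congrArg (fun z : E => (z : AlgebraicClosure ℚ_[ℓ])) ha
  dsimp only at ha'
  rw [hsum] at ha'
  rw [← ha']
  apply red2 π hker hwli
  rintro rfl
  apply hy0
  rw [← ha']
  simp

end Pool.Agent.Q96.OI.UNR
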