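import Pool.Agent.Y142.ZI.Resc
import Pool.Agent.Y331.ZD.Krq

set_option autoImplicit false

/-! Project OI of helper282, task CLQ: clusters of roots of an inverse-invariant polynomial. -/

open Matrix Polynomial Filter Topology NumberField IsDedekindDomain
open Pool.Agent.Y142.ZO Pool.Agent.Y142.ZI

namespace Pool.Agent.Q96.OI.CLQ

variable {ℓ : ℕ} [hℓ : Fact ℓ.Prime]

lemma nmap (x : ℚ_[ℓ]) : ‖algebraMap ℚ_[ℓ] (AlgebraicClosure ℚ_[ℓ]) x‖ = ‖x‖ :=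
  PadicAlgCl.norm_extends ℓ x

lemma norm_lam (k : ℕ) :
    ‖algebraMap ℚ_[ℓ] (AlgebraicClosure ℚ_[ℓ]) ((ℓ : ℚ_[ℓ]) ^ k)‖ = ((ℓ : ℝ) ^ k)⁻¹ := by
  rw [nmap, norm_pow, Padic.norm_p, inv_pow]

lemma mem_clus (k : ℕ) (Q : ℚ_[ℓ][X]) (β : ℚ_[ℓ]) (r : AlgebraicClosure ℚ_[ℓ]) :
    1 + algebraMap ℚ_[ℓ] (AlgebraicClosure ℚ_[ℓ]) ((ℓ : ℚ_[ℓ]) ^ k) * r ∈ Clus ℓ k Q β ↔
      aeval r (resc ℓ k Q) = 0 ∧ ‖r - algebraMap ℚ_[ℓ] (AlgebraicClosure ℚ_[ℓ]) β‖ < 1 := by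
  unfold Clus
  rw [Set.mem_ofPred_eq, aeval_resc']
  have h1 : 1 + algebraMap ℚ_[ℓ] (AlgebraicClosure ℚ_[ℓ]) ((ℓ : ℚ_[ℓ]) ^ k) * r - 1 -
      algebraMap ℚ_[ℓ] (AlgebraicClosure ℚ_[ℓ]) ((ℓ : ℚ_[ℓ]) ^ k * β) =
      algebraMap ℚ_[ℓ] (AlgebraicClosure ℚ_[ℓ]) ((ℓ : ℚ_[ℓ]) ^ k) *
        (r - algebraMap ℚ_[ℓ] (AlgebraicClosure ℚ_[ℓ]) β) := by
    rw [map_mul]; ring
  have h2 : (0 : ℝ) < ((ℓ : ℝ) ^ k)⁻¹ :=
    inv_pos.2 (pow_pos (by exact_mod_cast hℓ.out.pos) _)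
  rw [h1, norm_mul, norm_lam, mul_lt_iff_lt_one_right h2]

lemma exists_r (k : ℕ) (x : AlgebraicClosure ℚ_[ℓ]) : ∃ r : AlgebraicClosure ℚ_[ℓ],
    x = 1 + algebraMap ℚ_[ℓ] (AlgebraicClosure ℚ_[ℓ]) ((ℓ : ℚ_[ℓ]) ^ k) * r := by
  have h0 : algebraMap ℚ_[ℓ] (AlgebraicClosure ℚ_[ℓ]) ((ℓ : ℚ_[ℓ]) ^ k) ≠ 0 :=
    (_root_.map_ne_zero _).2 (ell_pow_ne k)
  refine ⟨(x - 1) / algebraMap ℚ_[ℓ] (AlgebraicClosure ℚ_[ℓ]) ((ℓ : ℚ_[ℓ]) ^ k), ?_⟩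
  rw [mul_div_cancel₀ _ h0]
  ring

theorem t (hCLU : S_CLU) : S_CLQ := by
  intro ℓ hℓ hℓ2 J _ b c m hb hbb hm hc
  obtain ⟨ε, hε, H⟩ := hCLU ℓ J b c m hb hbb hm hc
  have hℓ1 : (1 : ℝ) < ℓ := by exact_mod_cast hℓ.out.one_lt
  have hinv0 : (0 : ℝ) < (ℓ : ℝ)⁻¹ := inv_pos.2 (by linarith)
  have hinv1 : (ℓ : ℝ)⁻¹ < 1 := inv_lt_one_of_one_lt₀ hℓ1
  refine ⟨min ε (ℓ : ℝ)⁻¹, lt_min hε hinv0, ?_⟩
  intro k Q hk hQ hQd hinv hcl
  have hR := resc_monic (ℓ := ℓ) k hQ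
  obtain ⟨hsep, hroot, hcard, htr⟩ := H (resc ℓ k Q) hR (by rw [resc_natDegree, hQd])
    (fun i => (hcl i).trans_le (min_le_left _ _))
  set L := AlgebraicClosure ℚ_[ℓ] with hL
  set lam : L := algebraMap ℚ_[ℓ] (AlgebraicClosure ℚ_[ℓ]) ((ℓ : ℚ_[ℓ]) ^ k) with hlam
  have hlam0 : lam ≠ 0 := (_root_.map_ne_zero _).2 (ell_pow_ne k)
  have hlamn : ‖lam‖ = ((ℓ : ℝ) ^ k)⁻¹ := norm_lam k
  have hlam1 : ‖lam‖ < 1 := by
    rw [hlamn]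
    exact inv_lt_one_of_one_lt₀ (one_lt_pow₀ hℓ1 hk.ne')
  have hlampos : 0 < ‖lam‖ := norm_pos_iff.2 hlam0
  refine ⟨separable_of_resc k hsep, ?_, ?_, ?_, ?_, ?_, ?_, ?_⟩
  · intro hb0 hQ1
    have h0 : (resc ℓ k Q).eval 0 = 0 := by rw [eval_zero_resc, hQ1, mul_zero]
    have h1 : aeval (0 : L) (resc ℓ k Q) = 0 := by
      have := aeval_algebraMap_apply (A := ℚ_[ℓ]) L 0 (resc ℓ k Q)
      rw [map_zero] at this
      rw [this, coe_aeval_eq_eval, h0, map_zero]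
    obtain ⟨-, j, hj⟩ := hroot 0 h1
    have hj' : ‖b j‖ < 1 := by
      rw [zero_sub, norm_neg] at hj
      have h2 : ‖algebraMap ℚ_[ℓ] (AlgebraicClosure ℚ_[ℓ]) (b j)‖ = ‖b j‖ := nmap _
      rwa [h2] at hj
    have hbj := hb0 j hj'
    have h3 := hcl 0
    rw [coeff_zero_eq_eval_zero, eval_sub, h0, zero_sub, norm_neg, eval_prod, norm_prod] at h3
    have h4 : ∏ i, ‖eval 0 ((X - C (b i)) ^ m i - C (c i))‖ = (ℓ : ℝ)⁻¹ := by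
      classical
      rw [Finset.prod_eq_single j]
      · rw [hbj, eval_sub, eval_pow, eval_sub, eval_X, eval_C, eval_C, sub_zero,
          zero_pow (hm j).ne', zero_sub, norm_neg, hc j]
      · intro i _ hij
        have h5 : ‖b i‖ = 1 := by
          have := hbb i j hij
          rwa [hbj, sub_zero] at this
        rw [eval_sub, eval_pow, eval_sub, eval_X, eval_C, eval_C, zero_sub]
        have h6 : ‖(-b i) ^ m i‖ = 1 := by rw [norm_pow, norm_neg, h5, one_pow]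
        have h7 : ‖c i‖ < ‖(-b i) ^ m i‖ := by rw [h6, hc i]; exact hinv1
        rw [sub_eq_add_neg, IsUltrametricDist.norm_add_eq_max_of_norm_ne_norm
          (by rw [norm_neg]; exact h7.ne'), norm_neg, max_eq_left h7.le, h6]
      · intro h
        exact absurd (Finset.mem_univ j) h
    rw [h4] at h3
    exact absurd (h3.trans_le (min_le_right _ _)) (lt_irrefl _)
  · intro x hx
    obtain ⟨r, rfl⟩ := exists_r (ℓ := ℓ) k x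
    have h1 : aeval r (resc ℓ k Q) = 0 := (aeval_resc' k Q r).2 hx
    obtain ⟨-, j, hj⟩ := hroot r h1
    exact ⟨j, (mem_clus k Q (b j) r).2 ⟨h1, hj⟩⟩
  · intro i j hij
    rw [Set.disjoint_left]
    intro x hx hx'
    obtain ⟨r, rfl⟩ := exists_r (ℓ := ℓ) k x
    have h1 := ((mem_clus k Q (b i) r).1 hx).2
    have h2 := ((mem_clus k Q (b j) r).1 hx').2
    have h3 : ‖b i - b j‖ < 1 := by
      have h4 : ‖algebraMap ℚ_[ℓ] (AlgebraicClosure ℚ_[ℓ]) (b i - b j)‖ = ‖b i - b j‖ := nmap _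
      rw [← h4, map_sub]
      have h5 : algebraMap ℚ_[ℓ] (AlgebraicClosure ℚ_[ℓ]) (b i) -
          algebraMap ℚ_[ℓ] (AlgebraicClosure ℚ_[ℓ]) (b j) =
          (r - algebraMap ℚ_[ℓ] (AlgebraicClosure ℚ_[ℓ]) (b j)) -
          (r - algebraMap ℚ_[ℓ] (AlgebraicClosure ℚ_[ℓ]) (b i)) := by ring
      rw [h5]
      exact Pool.Agent.Y331.ZD.um_sub h2 h1
    rw [hbb i j hij] at h3
    exact absurd h3 (lt_irrefl _)
  · intro j
    have hinj : Function.Injective (fun r : L => 1 + lam * r) := by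
      intro r s hrs
      have : lam * r = lam * s := by simpa using hrs
      exact mul_left_cancel₀ hlam0 this
    have himg : Clus ℓ k Q (b j) = (fun r : L => 1 + lam * r) '' {r : L | aeval r (resc ℓ k Q) = 0 ∧
        ‖r - algebraMap ℚ_[ℓ] (AlgebraicClosure ℚ_[ℓ]) (b j)‖ < 1} := by
      ext x
      constructor
      · intro hx
        obtain ⟨r, rfl⟩ := exists_r (ℓ := ℓ) k x
        exact ⟨r, (mem_clus k Q (b j) r).1 hx, rfl⟩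
      · rintro ⟨r, hr, rfl⟩
        exact (mem_clus k Q (b j) r).2 hr
    rw [himg, Set.ncard_image_of_injective _ hinj]
    exact hcard j
  · intro i j hij x hx
    have hx0 := hinv x hx.1
    refine ⟨hx0.2, ?_⟩
    obtain ⟨r, hr⟩ := exists_r (ℓ := ℓ) k x
    rw [← hlam] at hr
    rw [hr] at hx
    obtain ⟨h1, h2⟩ := (mem_clus k Q (b j) r).1 hx
    have hr1 := (hroot r h1).1
    have hlr : ‖lam * r‖ < 1 := by
      rw [norm_mul]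
      calc ‖lam‖ * ‖r‖ ≤ ‖lam‖ * 1 := mul_le_mul_of_nonneg_left hr1 (norm_nonneg _)
        _ < 1 := by rw [mul_one]; exact hlam1
    have hxn : ‖x‖ = 1 := by
      rw [hr]
      rw [IsUltrametricDist.norm_add_eq_max_of_norm_ne_norm (by rw [norm_one]; exact hlr.ne'),
        norm_one, max_eq_left hlr.le]
    have h3 : x⁻¹ - 1 - algebraMap ℚ_[ℓ] (AlgebraicClosure ℚ_[ℓ]) ((ℓ : ℚ_[ℓ]) ^ k * b i) =
        -(lam * ((r - algebraMap ℚ_[ℓ] (AlgebraicClosure ℚ_[ℓ]) (b j)) - r * (lam * r) * x⁻¹)) := by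
      rw [hij, map_mul, map_neg, ← hlam]
      have h4 : x⁻¹ - 1 = -(lam * r) * x⁻¹ := by
        have : lam * r = x - 1 := by rw [hr]; ring
        rw [this]
        field_simp [hx0.1]
        ring
      have h5 : x⁻¹ = 1 - lam * r * x⁻¹ := by linear_combination h4
      rw [h4]
      linear_combination (-lam * r) * h5
    rw [h3, norm_neg, norm_mul, hlamn]
    have h6 : ‖r * (lam * r) * x⁻¹‖ < 1 := by
      rw [norm_mul, norm_inv, hxn, inv_one, mul_one, norm_mul]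
      calc ‖r‖ * ‖lam * r‖ ≤ 1 * ‖lam * r‖ := mul_le_mul_of_nonneg_right hr1 (norm_nonneg _)
        _ < 1 := by rw [one_mul]; exact hlr
    have h7 := Pool.Agent.Y331.ZD.um_sub h2 h6
    have h8 : (0 : ℝ) < ((ℓ : ℝ) ^ k)⁻¹ := by rw [← hlamn]; exact hlampos
    exact (mul_lt_iff_lt_one_right h8).2 h7
  · intro τ j x hx
    refine ⟨Pool.Agent.Y331.ZD.root_aut τ hx.1, ?_⟩
    have h1 : τ x - 1 - algebraMap ℚ_[ℓ] (AlgebraicClosure ℚ_[ℓ]) ((ℓ : ℚ_[ℓ]) ^ k * b j) =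
        τ (x - 1 - algebraMap ℚ_[ℓ] (AlgebraicClosure ℚ_[ℓ]) ((ℓ : ℚ_[ℓ]) ^ k * b j)) := by
      rw [map_sub, map_sub, map_one, AlgEquiv.commutes]
    rw [h1, Pool.Agent.Y331.ZD.norm_inv']
    exact hx.2
  · intro F hF j x hx y hy
    obtain ⟨r, rfl⟩ := exists_r (ℓ := ℓ) k x
    obtain ⟨s, rfl⟩ := exists_r (ℓ := ℓ) k y
    obtain ⟨h1, h2⟩ := (mem_clus k Q (b j) r).1 hx
    obtain ⟨h3, h4⟩ := (mem_clus k Q (b j) s).1 hy
    obtain ⟨τ, hτ⟩ := htr F hF j r s h1 h3 h2 h4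
    refine ⟨τ, ?_⟩
    rw [map_add, map_mul, map_one, hτ]
    have h5 : τ (algebraMap ℚ_[ℓ] (AlgebraicClosure ℚ_[ℓ]) ((ℓ : ℚ_[ℓ]) ^ k)) =
        algebraMap ℚ_[ℓ] (AlgebraicClosure ℚ_[ℓ]) ((ℓ : ℚ_[ℓ]) ^ k) := by
      rw [IsScalarTower.algebraMap_apply ℚ_[ℓ] F (AlgebraicClosure ℚ_[ℓ])]
      exact τ.commutes _
    rw [h5]

end Pool.Agent.Q96.OI.CLQ
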