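import Pool.Agent.Y142.ZD.Stm
import Pool.Agent.Y255.SS.LF
import Pool.Agent.Y331.ZD.Krq

set_option autoImplicit false

/-! Project OI of helper282: the residue field of the algebraic closure of the `ℓ`-adic numbers,
roots of polynomials which are separable modulo `ℓ`. -/

open Matrix Polynomial Filter Topology NumberField IsDedekindDomain
open Pool.Agent.Y142.ZO Pool.Agent.Y142.ZI Pool.Agent.Y255.SS

namespace Pool.Agent.Q96.OI.Res

variable (ℓ : ℕ) [hℓ : Fact ℓ.Prime]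

theorem nmap (x : ℚ_[ℓ]) : ‖algebraMap ℚ_[ℓ] (AlgebraicClosure ℚ_[ℓ]) x‖ = ‖x‖ :=
  PadicAlgCl.norm_extends ℓ x

theorem exists_res : ∃ (κ : Type) (_ : Field κ) (π : BB ℓ →+* κ), Function.Surjective π ∧
    (∀ x : BB ℓ, π x = 0 ↔ ‖(x : AlgebraicClosure ℚ_[ℓ])‖ < 1) ∧
    ∀ g : AlgebraicClosure ℚ_[ℓ] ≃ₐ[ℚ_[ℓ]] AlgebraicClosure ℚ_[ℓ], ∃ φ : κ →+* κ,
      ∀ x y : BB ℓ, (y : AlgebraicClosure ℚ_[ℓ]) = g x → φ (π x) = π y := by
  have hmax : (mI ℓ).IsMaximal := by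
    let _ : Field (ℤ_[ℓ] ⧸ IsLocalRing.maximalIdeal ℤ_[ℓ]) := Ideal.Quotient.field _
    exact Ideal.isMaximal_of_isIntegral_of_isMaximal_comap (R := ℤ_[ℓ]) (mI ℓ) (by
      have h1 := (inferInstance : (mI ℓ).LiesOver (IsLocalRing.maximalIdeal ℤ_[ℓ])).over
      rw [Ideal.under_def] at h1
      rw [← h1]
      infer_instance)
  refine ⟨BB ℓ ⧸ mI ℓ, Ideal.Quotient.field _, Ideal.Quotient.mk (mI ℓ),
    Ideal.Quotient.mk_surjective, ?_, ?_⟩
  · intro x
    exact Ideal.Quotient.eq_zero_iff_mem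
  · intro g
    have hg : ∀ x : BB ℓ, ‖g x‖ ≤ 1 := by
      intro x
      rw [Pool.Agent.Y331.ZD.norm_inv']
      exact le_of_int ℓ x.2
    let γ : BB ℓ →+* BB ℓ :=
      { toFun := fun x => ⟨g x, int_of_le ℓ (hg x)⟩
        map_one' := Subtype.ext (map_one g)
        map_mul' := fun x y => Subtype.ext (map_mul g _ _)
        map_zero' := Subtype.ext (map_zero g)
        map_add' := fun x y => Subtype.ext (map_add g _ _) }
    refine ⟨Ideal.Quotient.lift (mI ℓ) ((Ideal.Quotient.mk (mI ℓ)).comp γ) ?_, ?_⟩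
    · intro x hx
      rw [RingHom.comp_apply, Ideal.Quotient.eq_zero_iff_mem, mem_mI]
      rw [mem_mI] at hx
      show ‖g (x : AlgebraicClosure ℚ_[ℓ])‖ < 1
      rw [Pool.Agent.Y331.ZD.norm_inv']
      exact hx
    · intro x y hy
      rw [Ideal.Quotient.lift_mk, RingHom.comp_apply]
      congr 1
      exact Subtype.ext hy.symm

section

variable {ℓ} {κ : Type} [Field κ] (π : BB ℓ →+* κ)

theorem charp (hker : ∀ x : BB ℓ, π x = 0 ↔ ‖(x : AlgebraicClosure ℚ_[ℓ])‖ < 1) : CharP κ ℓ := by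
  rw [CharP.charP_iff_prime_eq_zero hℓ.out]
  have h1 : (ℓ : κ) = π (ℓ : BB ℓ) := by rw [map_natCast]
  rw [h1, hker]
  have h2 : ((ℓ : BB ℓ) : AlgebraicClosure ℚ_[ℓ]) = algebraMap ℚ_[ℓ] (AlgebraicClosure ℚ_[ℓ]) (ℓ : ℚ_[ℓ]) := by
    rw [map_natCast]
    rfl
  rw [h2, nmap]
  exact Padic.norm_p_lt_one

variable [Algebra (ZMod ℓ) κ]

theorem pi_alg (hker : ∀ x : BB ℓ, π x = 0 ↔ ‖(x : AlgebraicClosure ℚ_[ℓ])‖ < 1) (a : ℤ_[ℓ]) :
    π (algebraMap ℤ_[ℓ] (BB ℓ) a) = algebraMap (ZMod ℓ) κ (PadicInt.toZMod a) := by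
  have h1 := PadicInt.toZMod_spec a
  rw [IsLocalRing.mem_maximalIdeal, PadicInt.mem_nonunits] at h1
  have h2 : π (algebraMap ℤ_[ℓ] (BB ℓ) (a - (ZMod.cast (PadicInt.toZMod a) : ℤ_[ℓ]))) = 0 := by
    rw [hker, norm_alg]
    exact h1
  rw [map_sub, map_sub, sub_eq_zero] at h2
  rw [h2]
  have h3 : (ZMod.cast (PadicInt.toZMod a) : ℤ_[ℓ]) = (((PadicInt.toZMod a).val : ℕ) : ℤ_[ℓ]) :=
    (ZMod.natCast_val _).symm
  rw [h3, map_natCast, map_natCast]
  conv_rhs => rw [← ZMod.natCast_zmod_val (PadicInt.toZMod a)]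
  rw [map_natCast]

theorem pi_int (hker : ∀ x : BB ℓ, π x = 0 ↔ ‖(x : AlgebraicClosure ℚ_[ℓ])‖ < 1) (x : BB ℓ) :
    IsIntegral (ZMod ℓ) (π x) := by
  obtain ⟨p, hp, h1⟩ : IsIntegral ℤ_[ℓ] x := by
    have := x.2
    rw [mem_integralClosure_iff] at this
    rwa [← isIntegral_algebraMap_iff (A := BB ℓ) (B := AlgebraicClosure ℚ_[ℓ])
      (Subtype.val_injective)]
  refine ⟨p.map PadicInt.toZMod, hp.map _, ?_⟩
  have h2 := congrArg π h1
  rw [hom_eval₂, map_zero] at h2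
  rw [eval₂_map]
  have h3 : (algebraMap (ZMod ℓ) κ).comp PadicInt.toZMod = π.comp (algebraMap ℤ_[ℓ] (BB ℓ)) :=
    RingHom.ext fun a => (pi_alg π hker a).symm
  rw [h3]
  exact h2

/-- the reduction of an integral root -/
theorem pi_root (f : ℤ[X]) {x : BB ℓ} (hx : aeval (x : AlgebraicClosure ℚ_[ℓ]) f = 0) :
    aeval (π x) (f.map (Int.castRingHom (ZMod ℓ))) = 0 := by
  have h1 : aeval x f = 0 := by
    apply Subtype.val_injective
    have := Polynomial.aeval_algebraMap_apply (AlgebraicClosure ℚ_[ℓ]) x f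
    rw [ZeroMemClass.coe_zero, ← hx]
    exact this.symm
  rw [aeval_def, eval₂_map]
  have h2 := congrArg π h1
  rw [aeval_def, hom_eval₂, map_zero] at h2
  rw [RingHom.ext_int ((algebraMap (ZMod ℓ) κ).comp (Int.castRingHom (ZMod ℓ)))
    (π.comp (algebraMap ℤ (BB ℓ)))]
  exact h2

end

theorem int_root {f : ℤ[X]} (hf : f.Monic) {x : AlgebraicClosure ℚ_[ℓ]} (hx : aeval x f = 0) :
    ‖x‖ ≤ 1 := by
  apply le_of_int
  exact (show IsIntegral ℤ x from ⟨f, hf, hx⟩).tower_top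

/-- different roots of a polynomial which is separable modulo `ℓ` have distance one -/
theorem root_dist {f : ℤ[X]} (hf : f.Monic) (hsep : (f.map (Int.castRingHom (ZMod ℓ))).Separable)
    {x y : AlgebraicClosure ℚ_[ℓ]} (hx : aeval x f = 0) (hy : aeval y f = 0) (hxy : ‖y - x‖ < 1) :
    x = y := by
  obtain ⟨κ, _, π, hsurj, hker, hact⟩ := exists_res ℓ
  have hchar := charp π hker
  let _ : Algebra (ZMod ℓ) κ := ZMod.algebra κ ℓ
  by_contra hne
  set X' : BB ℓ := ⟨x, int_of_le ℓ (int_root ℓ hf hx)⟩ with hX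
  set Y' : BB ℓ := ⟨y, int_of_le ℓ (int_root ℓ hf hy)⟩ with hY
  have hX0 : aeval X' f = 0 := by
    apply Subtype.val_injective
    have := Polynomial.aeval_algebraMap_apply (AlgebraicClosure ℚ_[ℓ]) X' f
    rw [ZeroMemClass.coe_zero, ← hx]
    exact this.symm
  have hY0 : aeval Y' f = 0 := by
    apply Subtype.val_injective
    have := Polynomial.aeval_algebraMap_apply (AlgebraicClosure ℚ_[ℓ]) Y' f
    rw [ZeroMemClass.coe_zero, ← hy]
    exact this.symm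
  obtain ⟨k, hk⟩ := Polynomial.binomExpansion (f.map (algebraMap ℤ (BB ℓ))) X' (Y' - X')
  rw [add_sub_cancel, eval_map_algebraMap, eval_map_algebraMap, hX0, hY0, zero_add] at hk
  have h1 : (Y' - X') * (eval X' (derivative (f.map (algebraMap ℤ (BB ℓ)))) + k * (Y' - X')) = 0 := by
    rw [hk]; ring
  have h2 : Y' - X' ≠ 0 := by
    rw [sub_ne_zero]
    intro h
    exact hne (congrArg Subtype.val h).symm
  have h3 := (mul_eq_zero.1 h1).resolve_left h2
  have h4 : π (Y' - X') = 0 := (hker _).2 hxy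
  have h5 := congrArg π h3
  rw [map_add, map_mul, h4, mul_zero, add_zero, map_zero] at h5
  apply hsep.aeval_derivative_ne_zero (pi_root π f (x := X') hx)
  rw [derivative_map, aeval_def, eval₂_map]
  rw [derivative_map, eval_map, hom_eval₂] at h5
  rw [RingHom.ext_int ((algebraMap (ZMod ℓ) κ).comp (Int.castRingHom (ZMod ℓ)))
    (π.comp (algebraMap ℤ (BB ℓ)))]
  exact h5

end Pool.Agent.Q96.OI.Res
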